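import Pool.Agent.Run7.h275.RB5
import Pool.Agent.Run7.h275.RLJ

/-!
# Project RB (helper275), piece NZF: nonzero minors over a perfect field
-/

set_option autoImplicit false
set_option linter.style.haveILetI false

namespace Pool.Agent.Run7.h882.RB

open Pool.Agent.Run7.h275.RL Pool.Agent.Run7.h275.RB

/-- The general statement: `B` is the ring of the chart, it is enough that its fraction field has no
first cotangent homology over the base. -/
theorem nz (O F : Type) [CommRing O] [IsRegularRing O] [Field F] [Algebra O F] (n : ℕ) (x : Fin n → F)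
    (hK : Subsingleton (Algebra.H1Cotangent O (FractionRing
      (MvPolynomial.aeval x : MvPolynomial (Fin n) O →ₐ[O] F).range))) :
    ∃ (r : ℕ) (f : Fin r → MvPolynomial (Fin n) O)
      (D : Fin r → Derivation O (MvPolynomial (Fin n) O) (MvPolynomial (Fin n) O)),
      (∀ k, MvPolynomial.aeval x (f k) = 0) ∧
      (∀ s : MvPolynomial (Fin n) O, MvPolynomial.aeval x s = 0 →
        ∃ t, MvPolynomial.aeval x t ≠ 0 ∧ t * s ∈ Ideal.span (Set.range f)) ∧
      (Matrix.of fun k l => MvPolynomial.aeval x (D l (f k))).det ≠ 0 := by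
  classical
  set φ : MvPolynomial (Fin n) O →ₐ[O] F := MvPolynomial.aeval x with hφ
  set S := MvPolynomial (Fin n) O with hS
  let B := φ.range
  let K := FractionRing B
  let g : S →ₐ[O] B := φ.rangeRestrict
  have hgs : Function.Surjective g := φ.rangeRestrict_surjective
  letI : Algebra S K := ((algebraMap B K).comp g.toRingHom).toAlgebra
  haveI : @IsScalarTower O S K Algebra.toSMul Algebra.toSMul Algebra.toSMul :=
    IsScalarTower.of_algebraMap_eq (R := O) (S := S) (A := K) fun a => by
      show algebraMap O K a = algebraMap B K (g (algebraMap O S a))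
      rw [g.commutes]
      exact IsScalarTower.algebraMap_apply O B K a
  have hSK : ∀ s : S, algebraMap S K s = algebraMap B K (g s) := fun s => rfl
  have hBK : Function.Injective (algebraMap B K) := IsFractionRing.injective B K
  have hzero : ∀ s : S, algebraMap S K s = 0 ↔ φ s = 0 := by
    intro s
    rw [hSK]
    constructor
    · intro h
      have h1 : g s = 0 := hBK (by rw [h, map_zero])
      have h2 : ((g s : B) : F) = 0 := by rw [h1]; rfl
      exact h2
    · intro h
      have h1 : g s = 0 := Subtype.ext h
      rw [h1, map_zero]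
  have hfr : ∀ z : K, ∃ a b : S, algebraMap S K b ≠ 0 ∧ z * algebraMap S K b = algebraMap S K a := by
    intro z
    obtain ⟨a, b, hb, rfl⟩ := IsFractionRing.div_surjective (A := B) z
    obtain ⟨a', rfl⟩ := hgs a
    obtain ⟨b', rfl⟩ := hgs b
    have hb' : algebraMap B K (g b') ≠ 0 := fun h => nonZeroDivisors.ne_zero hb (hBK (by rw [h, map_zero]))
    exact ⟨a', b', hb', by rw [hSK, hSK, div_mul_cancel₀ _ hb']⟩
  obtain ⟨r, f, D, hf, hgen, hdet⟩ := exists_jac (k₀ := O) (S := S) (K := K) hK hfr
  refine ⟨r, f, D, fun k => (hzero _).1 (hf k), fun s hs => ?_, ?_⟩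
  · obtain ⟨t, ht, hts⟩ := hgen s ((hzero s).2 hs)
    exact ⟨t, fun h => ht ((hzero t).2 h), hts⟩
  · intro h
    apply hdet
    have h1 : (Matrix.of fun i j => algebraMap S K (D j (f i))).det =
        algebraMap S K (Matrix.of fun i j => D j (f i)).det := by
      rw [RingHom.map_det]; rfl
    rw [h1, hzero]
    have h2 : φ (Matrix.of fun i j => D j (f i)).det = (Matrix.of fun k l => φ (D l (f k))).det := by
      rw [AlgHom.map_det]; rfl
    rw [h2]
    exact h

theorem t_NZF : S_NZF := by
  intro k F _ _ _ _ n y i
  haveI hft : Algebra.FiniteType k (MvPolynomial.aeval (fun j => y j / y i) :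
      MvPolynomial (Fin n) k →ₐ[k] F).range :=
    Algebra.FiniteType.of_surjective (AlgHom.rangeRestrict (MvPolynomial.aeval (fun j => y j / y i) :
      MvPolynomial (Fin n) k →ₐ[k] F)) (AlgHom.rangeRestrict_surjective _)
  haveI hef : Algebra.EssFiniteType k (FractionRing (MvPolynomial.aeval (fun j => y j / y i) :
      MvPolynomial (Fin n) k →ₐ[k] F).range) := inferInstance
  haveI hfs : Algebra.FormallySmooth k (FractionRing (MvPolynomial.aeval (fun j => y j / y i) :
      MvPolynomial (Fin n) k →ₐ[k] F).range) := Algebra.FormallySmooth.of_perfectField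
  obtain ⟨r, f, D, hf, hgen, hdet⟩ := nz k F n (fun j => y j / y i)
    (Algebra.FormallySmooth.subsingleton_h1Cotangent)
  exact ⟨_, hdet, r, f, fun l => (D l).restrictScalars ℤ, hf, hgen, rfl⟩

end Pool.Agent.Run7.h882.RB
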